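import Pool.Agent.BEP.Stmts

set_option autoImplicit false

/-! Row PEV of squad BEP (MP_be01ff_an): products of eigenfunctions, classes and invariance. -/

namespace Pool.Agent.BEP.H4

open Set Filter Topology MeasureTheory
open scoped InnerProductSpace ENNReal
open Pool.Agent Pool.Agent.BE01 Pool.Agent.BEG Pool.Agent.BEH Pool.Agent.BEP

/-- **PEV**. -/
theorem pev (pmp : PmpStmt) (pee : PeeStmt) (mgp : MgpStmt) : PevStmt := by
  intro d m Ω1 Ω2 l1 l2 u v h1 h2 hu hv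
  obtain ⟨e, he, hes, -, -, hmp0, hdom⟩ := pmp d m
  have hmp := hmp0 Ω1 Ω2 h1.1.measurableSet h2.1.measurableSet
  have hD := hdom Ω1 Ω2 h1 h2
  have i1 : SFinite (mu Ω1) := by
    unfold mu
    infer_instance
  have i2 : SFinite (mu Ω2) := by
    unfold mu
    infer_instance
  have hE := pee d m Ω1 Ω2 l1 l2 (fun x => u x) (fun x => v x) h1 h2
    (Helper70BE01Conv.eig_of hu) (Helper70BE01Conv.eig_of hv)
  obtain ⟨F, hF, -⟩ := id hE
  have hL : MemLp (fun x : En (d + m) => u (fs x) * v (sn x)) 2 (mu (Pr Ω1 Ω2)) := hF.1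
  obtain ⟨w, hw⟩ : ∃ w : Lp ℝ 2 (mu (Pr Ω1 Ω2)),
      w =ᵐ[mu (Pr Ω1 Ω2)] fun x => u (fs x) * v (sn x) := ⟨hL.toLp _, hL.coeFn_toLp⟩
  refine ⟨w, hw, Helper70BE01Conv.eig_to hE hw, ?_, ?_⟩
  · intro hu0 hv0 hw0
    have a1 : ∀ᵐ x ∂(mu (Pr Ω1 Ω2)), u (fs x) * v (sn x) = 0 := by
      rw [hw0] at hw
      filter_upwards [hw, Lp.coeFn_zero ℝ 2 (mu (Pr Ω1 Ω2))] with x hx hx'
      rw [← hx, hx', Pi.zero_apply]
    have a2 : ∀ᵐ q ∂((mu Ω1).prod (mu Ω2)), u q.1 * v q.2 = 0 := by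
      have := (hmp.symm e).quasiMeasurePreserving.ae a1
      filter_upwards [this] with q hq
      rw [hes, fs_jn, sn_jn] at hq
      exact hq
    have a3 := Measure.ae_ae_of_ae_prod a2
    apply hu0
    have hv1 : ¬ ∀ᵐ z ∂(mu Ω2), v z = 0 := by
      intro h
      apply hv0
      apply Lp.ext
      filter_upwards [h, Lp.coeFn_zero ℝ 2 (mu Ω2)] with z hz hz'
      rw [hz, hz', Pi.zero_apply]
    apply Lp.ext
    filter_upwards [a3, Lp.coeFn_zero ℝ 2 (mu Ω1)] with y hy hy'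
    rw [hy', Pi.zero_apply]
    by_contra hne
    apply hv1
    filter_upwards [hy] with z hz
    exact (mul_eq_zero.1 hz).resolve_left hne
  · intro G hG hI
    rintro ⟨g1, g2⟩ ⟨⟨A, hA, hgA⟩, hg2⟩
    simp only at hgA hg2
    subst hgA
    subst hg2
    have hmv : ∀ x : En (d + m), mv (ex m A, (0 : En (d + m))) x = jn (A (fs x)) (sn x) := by
      intro x
      show ex m A x + 0 = _
      rw [add_zero, ex_apply]
    have hmv1 : ∀ y : En d, mv (A, (0 : En d)) y = A y := by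
      intro y
      show A y + 0 = _
      rw [add_zero]
    have hAG : (A, (0 : En d)) ∈ li G := ⟨hA, rfl⟩
    have hs1 := hG _ hAG
    have himg : mv (ex m A, (0 : En (d + m))) '' (Pr Ω1 Ω2) = Pr Ω1 Ω2 := by
      ext x
      constructor
      · rintro ⟨x', hx', rfl⟩
        rw [hmv]
        refine ⟨?_, ?_⟩
        · rw [fs_jn, ← hs1]
          exact ⟨fs x', hx'.1, hmv1 _⟩
        · rw [sn_jn]
          exact hx'.2
      · rintro ⟨hx1, hx2⟩
        have hx1' : fs x ∈ mv (A, (0 : En d)) '' Ω1 := by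
          rw [hs1]
          exact hx1
        obtain ⟨y, hy, hyx⟩ := hx1'
        rw [hmv1] at hyx
        refine ⟨jn y (sn x), ⟨?_, ?_⟩, ?_⟩
        · rw [fs_jn]
          exact hy
        · rw [sn_jn]
          exact hx2
        · rw [hmv, fs_jn, sn_jn, hyx, jn_fs_sn]
    have hpr := (mgp (d + m) (Pr Ω1 Ω2) (ex m A, 0) hD.1 himg).1
    have b1 : ∀ᵐ x ∂(mu (Pr Ω1 Ω2)), w (mv (ex m A, (0 : En (d + m))) x) =
        u (A (fs x)) * v (sn x) := by
      have := hpr.quasiMeasurePreserving.ae hw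
      filter_upwards [this] with x hx
      rw [hx, hmv, fs_jn, sn_jn]
    have b2 : ∀ᵐ x ∂(mu (Pr Ω1 Ω2)), u (A (fs x)) = u (fs x) := by
      have c1 : ∀ᵐ y ∂(mu Ω1), u (A y) = u y := by
        filter_upwards [hI _ hAG] with y hy
        rw [← hy, hmv1]
      have c2 : ∀ᵐ q ∂((mu Ω1).prod (mu Ω2)), u (A q.1) = u q.1 :=
        Measure.quasiMeasurePreserving_fst.ae c1
      have c3 := hmp.quasiMeasurePreserving.ae c2
      filter_upwards [c3] with x hx
      rw [he] at hx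
      exact hx
    filter_upwards [b1, b2, hw] with x hx1 hx2 hx3
    rw [hx1, hx2, hx3]

end Pool.Agent.BEP.H4
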